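import Pool.Agent.H74R2.WT.Stmts

set_option autoImplicit false

open MeasureTheory Set

namespace H74R2.WT

/-- coordinates in `K` -/
def KI (K : Subfield ℝ) (z : ℂ) : Prop := z.re ∈ K ∧ z.im ∈ K

lemma KI.mul {K : Subfield ℝ} {z w : ℂ} (hz : KI K z) (hw : KI K w) : KI K (z * w) := by
  constructor
  · rw [Complex.mul_re]; exact K.sub_mem (K.mul_mem hz.1 hw.1) (K.mul_mem hz.2 hw.2)
  · rw [Complex.mul_im]; exact K.add_mem (K.mul_mem hz.1 hw.2) (K.mul_mem hz.2 hw.1)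

lemma KI.inv {K : Subfield ℝ} {z : ℂ} (hz : KI K z) : KI K z⁻¹ := by
  have h : Complex.normSq z ∈ K := by
    rw [Complex.normSq_apply]
    exact K.add_mem (K.mul_mem hz.1 hz.1) (K.mul_mem hz.2 hz.2)
  constructor
  · rw [Complex.inv_re]; exact K.div_mem hz.1 h
  · rw [Complex.inv_im]; exact K.div_mem (K.neg_mem hz.2) h

lemma KI.real {K : Subfield ℝ} {r : ℝ} (hr : r ∈ K) : KI K (r : ℂ) := by
  constructor
  · simpa using hr
  · simp [K.zero_mem]

lemma conj_mul_self_one {v : ℂ} (hv : ‖v‖ = 1) : (starRingEnd ℂ) v * v = 1 := by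
  rw [Complex.conj_mul', hv]; norm_num

lemma H_front (K : Subfield ℝ) (P : Set ℂ) (hP : Gd K P) (g : ℂ ≃ᵢ ℂ) (v b : ℂ) (hv : ‖v‖ = 1)
    (hg : (∀ z, g z = v * z + b) ∨ (∀ z, g z = v * (starRingEnd ℂ) z + b)) :
    ∃ S : Finset (ℂ × ℝ), (∀ s ∈ S, KI K s.1 ∧ s.1 ≠ 0) ∧
      frontier ((fun z => g z) '' P) ⊆
        {z | ∃ s ∈ S, ((starRingEnd ℂ) (v * s.1) * z).re = s.2} := by
  classical
  obtain ⟨L, hL, hF⟩ := hP.lines
  have hfr : frontier ((fun z => g z) '' P) = (fun z => g z) '' frontier P :=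
    (g.toHomeomorph.image_frontier P).symm
  rcases hg with hg | hg
  · refine ⟨L.image (fun q => ((⟨q.1, q.2.1⟩ : ℂ),
      q.2.2 + ((starRingEnd ℂ) (v * (⟨q.1, q.2.1⟩ : ℂ)) * b).re)), ?_, ?_⟩
    · intro s hs
      obtain ⟨q, hq, rfl⟩ := Finset.mem_image.1 hs
      obtain ⟨h1, h2, h3⟩ := hL q hq
      refine ⟨⟨h1, h2⟩, ?_⟩
      intro h0
      have e1 := congrArg Complex.re h0
      have e2 := congrArg Complex.im h0
      simp at e1 e2
      tauto
    · rw [hfr]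
      rintro _ ⟨w, hw, rfl⟩
      obtain ⟨q, hq, hqw⟩ := hF hw
      refine ⟨_, Finset.mem_image_of_mem _ hq, ?_⟩
      simp only [hg]
      have e : (starRingEnd ℂ) (v * (⟨q.1, q.2.1⟩ : ℂ)) * (v * w + b) =
          ((starRingEnd ℂ) v * v) * ((starRingEnd ℂ) (⟨q.1, q.2.1⟩ : ℂ) * w) +
            (starRingEnd ℂ) (v * (⟨q.1, q.2.1⟩ : ℂ)) * b := by
        rw [map_mul]; ring
      rw [e, conj_mul_self_one hv, one_mul, Complex.add_re]
      congr 1
      rw [← hqw]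
      simp [Complex.mul_re]
  · refine ⟨L.image (fun q => ((⟨q.1, -q.2.1⟩ : ℂ),
      q.2.2 + ((starRingEnd ℂ) (v * (⟨q.1, -q.2.1⟩ : ℂ)) * b).re)), ?_, ?_⟩
    · intro s hs
      obtain ⟨q, hq, rfl⟩ := Finset.mem_image.1 hs
      obtain ⟨h1, h2, h3⟩ := hL q hq
      refine ⟨⟨h1, K.neg_mem h2⟩, ?_⟩
      intro h0
      have e1 := congrArg Complex.re h0
      have e2 := congrArg Complex.im h0
      simp at e1 e2
      tauto
    · rw [hfr]
      rintro _ ⟨w, hw, rfl⟩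
      obtain ⟨q, hq, hqw⟩ := hF hw
      refine ⟨_, Finset.mem_image_of_mem _ hq, ?_⟩
      simp only [hg]
      have e : (starRingEnd ℂ) (v * (⟨q.1, -q.2.1⟩ : ℂ)) * (v * (starRingEnd ℂ) w + b) =
          ((starRingEnd ℂ) v * v) * ((starRingEnd ℂ) (⟨q.1, -q.2.1⟩ : ℂ) * (starRingEnd ℂ) w) +
            (starRingEnd ℂ) (v * (⟨q.1, -q.2.1⟩ : ℂ)) * b := by
        rw [map_mul]; ring
      rw [e, conj_mul_self_one hv, one_mul, Complex.add_re]
      congr 1
      rw [← hqw]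
      simp [Complex.mul_re]

lemma H_sub (K : Subfield ℝ) (hK : ∀ a b : ℝ, a ∈ K → b ∈ K → Real.sqrt (a ^ 2 + b ^ 2) ∈ K)
    (ε δ u : ℂ) (hε : ‖ε‖ = 1) (hδ : ‖δ‖ = 1) (hu : u ∈ uD K)
    (hn : ¬ ∃ u' ∈ uD K, δ = ε * u') (s t : ℂ) (hs : KI K s) (hs0 : s ≠ 0) (ht : KI K t)
    (ht0 : t ≠ 0) (c c' : ℝ) :
    {z : ℂ | ((starRingEnd ℂ) (ε * u * s) * z).re = c ∧
      ((starRingEnd ℂ) (δ * t) * z).re = c'}.Subsingleton := by
  rintro z ⟨hz1, hz2⟩ z' ⟨hz1', hz2'⟩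
  by_contra hne
  apply hn
  have hd : z - z' ≠ 0 := sub_ne_zero.2 hne
  set d := z - z' with hdd
  have hε0 : ε ≠ 0 := by
    rintro rfl; simp at hε
  have hδ0 : δ ≠ 0 := by
    rintro rfl; simp at hδ
  have hu0 : u ≠ 0 := by
    rintro rfl; have := hu.1; simp at this
  have hp0 : (starRingEnd ℂ) (ε * u * s) * d ≠ 0 := by
    refine mul_ne_zero ?_ hd
    simpa using ⟨⟨hε0, hu0⟩, hs0⟩
  have hq0 : (starRingEnd ℂ) (δ * t) * d ≠ 0 := by
    refine mul_ne_zero ?_ hd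
    simpa using ⟨hδ0, ht0⟩
  have h1 : ((starRingEnd ℂ) (ε * u * s) * d).re = 0 := by
    rw [hdd, mul_sub, Complex.sub_re, hz1, hz1', sub_self]
  have h2 : ((starRingEnd ℂ) (δ * t) * d).re = 0 := by
    rw [hdd, mul_sub, Complex.sub_re, hz2, hz2', sub_self]
  set p := (starRingEnd ℂ) (ε * u * s) * d with hp
  set q := (starRingEnd ℂ) (δ * t) * d with hq
  have hpim : p.im ≠ 0 := fun h => hp0 (Complex.ext h1 h)
  have hqp : q * (p.im : ℂ) = p * (q.im : ℂ) := by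
    apply Complex.ext
    · simp [h1, h2]
    · simp [mul_comm]
  have hc : (starRingEnd ℂ) (δ * t) * (p.im : ℂ) = (starRingEnd ℂ) (ε * u * s) * (q.im : ℂ) := by
    apply mul_right_cancel₀ hd
    calc (starRingEnd ℂ) (δ * t) * (p.im : ℂ) * d = q * (p.im : ℂ) := by rw [hq]; ring
      _ = p * (q.im : ℂ) := hqp
      _ = (starRingEnd ℂ) (ε * u * s) * (q.im : ℂ) * d := by rw [hp]; ring
  have hc' : (δ * t) * (p.im : ℂ) = (ε * u * s) * (q.im : ℂ) := by
    have := congrArg (starRingEnd ℂ) hc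
    simpa only [map_mul, Complex.conj_conj, Complex.conj_ofReal] using this
  set r : ℝ := q.im / p.im with hr
  set w : ℂ := u * s * t⁻¹ with hw
  have hwK : KI K w := (KI.mul (KI.mul ⟨hu.2.1, hu.2.2⟩ hs) ht.inv)
  have hδe : δ = ε * ((r : ℂ) * w) := by
    have hpc : (p.im : ℂ) ≠ 0 := by exact_mod_cast hpim
    have : δ = (ε * u * s) * (q.im : ℂ) / ((p.im : ℂ) * t) := by
      rw [← hc']
      field_simp
    rw [this, hr, hw]
    push_cast
    field_simp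
  have hnorm : ‖(r : ℂ) * w‖ = 1 := by
    have := hδ
    rw [hδe, norm_mul, hε, one_mul] at this
    exact this
  have hwn : ‖w‖ ∈ K := by
    have : ‖w‖ = Real.sqrt (w.re ^ 2 + w.im ^ 2) := by
      rw [Complex.norm_def, Complex.normSq_apply]
      congr 1; ring
    rw [this]
    exact hK _ _ hwK.1 hwK.2
  have hrK : r ∈ K := by
    have h3 : |r| * ‖w‖ = 1 := by
      rw [norm_mul, Complex.norm_real, Real.norm_eq_abs] at hnorm
      exact hnorm
    have hw0 : ‖w‖ ≠ 0 := by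
      intro h; rw [h] at h3; simp at h3
    have h4 : |r| = ‖w‖⁻¹ := by
      field_simp
      exact h3
    have h5 : |r| ∈ K := by rw [h4]; exact K.inv_mem hwn
    rcases abs_choice r with h | h
    · rw [← h]; exact h5
    · have : r = -|r| := by rw [h]; ring
      rw [this]; exact K.neg_mem h5
  exact ⟨(r : ℂ) * w, ⟨hnorm, (KI.mul (KI.real hrK) hwK).1, (KI.mul (KI.real hrK) hwK).2⟩, hδe⟩

lemma H_inter (K : Subfield ℝ) (hK : ∀ a b : ℝ, a ∈ K → b ∈ K → Real.sqrt (a ^ 2 + b ^ 2) ∈ K)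
    (P : Set ℂ) (hP : Gd K P) (g h : ℂ ≃ᵢ ℂ) (ε δ u b b' : ℂ) (hε : ‖ε‖ = 1) (hδ : ‖δ‖ = 1)
    (hu : u ∈ uD K) (hn : ¬ ∃ u' ∈ uD K, δ = ε * u')
    (hg : (∀ z, g z = (ε * u) * z + b) ∨ (∀ z, g z = (ε * u) * (starRingEnd ℂ) z + b))
    (hh : (∀ z, h z = δ * z + b') ∨ (∀ z, h z = δ * (starRingEnd ℂ) z + b')) :
    (frontier ((fun z => g z) '' P) ∩ frontier ((fun z => h z) '' P)).Finite := by
  obtain ⟨S, hS, hSf⟩ := H_front K P hP g (ε * u) b (by rw [norm_mul, hε, hu.1, one_mul]) hg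
  obtain ⟨S', hS', hSf'⟩ := H_front K P hP h δ b' hδ hh
  have hsub : (frontier ((fun z => g z) '' P) ∩ frontier ((fun z => h z) '' P)) ⊆
      ⋃ s ∈ S, ⋃ t ∈ S', {z : ℂ | ((starRingEnd ℂ) (ε * u * s.1) * z).re = s.2 ∧
      ((starRingEnd ℂ) (δ * t.1) * z).re = t.2} := by
    rintro z ⟨hz1, hz2⟩
    obtain ⟨s, hs, hs'⟩ := hSf hz1
    obtain ⟨t, ht, ht'⟩ := hSf' hz2
    simp only [mem_iUnion]
    exact ⟨s, hs, t, ht, hs', ht'⟩
  refine Set.Finite.subset ?_ hsub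
  refine Set.Finite.biUnion S.finite_toSet (fun s hs => ?_)
  refine Set.Finite.biUnion S'.finite_toSet (fun t ht => ?_)
  exact (H_sub K hK ε δ u hε hδ hu hn s.1 t.1 (hS s hs).1 (hS s hs).2 (hS' t ht).1 (hS' t ht).2
    s.2 t.2).finite

lemma H_bd {A B : Set ℂ} (hA : Region A) (hB : Region B)
    (hd : Disjoint (interior A) (interior B)) : A ∩ B ⊆ frontier A ∩ frontier B := by
  rintro z ⟨hzA, hzB⟩
  constructor
  · refine ⟨subset_closure hzA, fun hi => ?_⟩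
    have := hB.reg hzB
    rw [mem_closure_iff] at this
    obtain ⟨y, hy1, hy2⟩ := this _ isOpen_interior hi
    exact Set.disjoint_left.1 hd hy1 hy2
  · refine ⟨subset_closure hzB, fun hi => ?_⟩
    have := hA.reg hzA
    rw [mem_closure_iff] at this
    obtain ⟨y, hy1, hy2⟩ := this _ isOpen_interior hi
    exact Set.disjoint_left.1 hd hy2 hy1

lemma H_closed (T T1 : Set (Set ℂ)) (hsub : T1 ⊆ T) (hreg : ∀ A ∈ T, Region A)
    (hf : ∀ R : ℝ, {A ∈ T | (A ∩ Metric.closedBall 0 R).Nonempty}.Finite) :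
    IsClosed (⋃₀ T1) := by
  rw [sUnion_eq_iUnion]
  apply LocallyFinite.isClosed_iUnion
  · intro x
    refine ⟨Metric.closedBall 0 (‖x‖ + 1), ?_, ?_⟩
    · apply Filter.mem_of_superset (Metric.ball_mem_nhds x one_pos)
      intro y hy
      rw [Metric.mem_ball, dist_eq_norm] at hy
      rw [Metric.mem_closedBall, dist_zero_right]
      calc ‖y‖ = ‖x + (y - x)‖ := by congr 1; ring
        _ ≤ ‖x‖ + ‖y - x‖ := norm_add_le _ _
        _ ≤ ‖x‖ + 1 := by linarith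
    · have h1 : (Subtype.val '' {i : T1 | ((i : Set ℂ) ∩
          Metric.closedBall 0 (‖x‖ + 1)).Nonempty}).Finite := by
        refine (hf (‖x‖ + 1)).subset ?_
        rintro _ ⟨i, hi, rfl⟩
        exact ⟨hsub i.2, hi⟩
      exact Set.Finite.of_finite_image h1 Subtype.val_injective.injOn
  · intro i
    exact (hreg i (hsub i.2)).cpt.isClosed

lemma H_uncount {A : Set ℂ} (hA : Region A) : ¬ A.Countable := by
  intro hc
  have h1 : (interior A).Countable := hc.mono interior_subset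
  have h2 := h1.measure_zero (volume : Measure ℂ)
  have h3 := isOpen_interior.measure_pos (volume : Measure ℂ) hA.ne
  rw [h2] at h3
  exact lt_irrefl _ h3

theorem t_H : T_H := by
  intro hK0 hO K hK P T hP hGd hT
  obtain ⟨hne, hcount, hfin, hreg, -⟩ := hO P T hP hT
  obtain ⟨A0, hA0⟩ := hne
  have hcong : ∀ A ∈ T, ∃ (g : ℂ ≃ᵢ ℂ) (u b : ℂ), A = (fun z => g z) '' P ∧ ‖u‖ = 1 ∧
      ((∀ z, g z = u * z + b) ∨ (∀ z, g z = u * (starRingEnd ℂ) z + b)) := by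
    intro A hA
    obtain ⟨g, hg⟩ := hT.tile A hA
    obtain ⟨u, b, hu, hub⟩ := hK0 g
    exact ⟨g, u, b, hg, hu, hub⟩
  obtain ⟨g0, ε, b0, hg0, hε, hgb0⟩ := hcong A0 hA0
  refine ⟨ε, hε, ?_⟩
  by_contra hcon
  push Not at hcon
  obtain ⟨B0, hB0, hB0'⟩ := hcon
  set T1 : Set (Set ℂ) := {A ∈ T | ∃ u ∈ uD K, ∃ b : ℂ, Cong P A (ε * u) b} with hT1
  set T2 : Set (Set ℂ) := T \ T1 with hT2
  have hT1s : T1 ⊆ T := fun A hA => hA.1
  have hT2s : T2 ⊆ T := fun A hA => hA.1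
  have hA01 : A0 ∈ T1 := by
    refine ⟨hA0, 1, ⟨by simp, by simp [K.one_mem], by simp [K.zero_mem]⟩, b0, ?_⟩
    rw [mul_one, hg0]
    rcases hgb0 with h | h
    · left; simp only [h]
    · right; simp only [h]
  have hB02 : B0 ∈ T2 := by
    refine ⟨hB0, fun h => ?_⟩
    obtain ⟨-, u, hu, b, hb⟩ := h
    exact hB0' u hu b hb
  have hX1 := H_closed T T1 hT1s hreg hfin
  have hX2 := H_closed T T2 hT2s hreg hfin
  have hcov : ∀ z : ℂ, z ∈ ⋃₀ T1 ∪ ⋃₀ T2 := by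
    intro z
    have : z ∈ ⋃₀ T := by rw [hT.cover]; trivial
    obtain ⟨A, hA, hzA⟩ := this
    by_cases h : A ∈ T1
    · exact Or.inl ⟨A, h, hzA⟩
    · exact Or.inr ⟨A, ⟨hA, h⟩, hzA⟩
  have hAB : ∀ A ∈ T1, ∀ B ∈ T2, (A ∩ B).Countable := by
    intro A hA B hB
    have hABne : A ≠ B := by
      rintro rfl
      exact hB.2 hA
    obtain ⟨hAT, u, hu, b, hb⟩ := hA
    obtain ⟨h, δ, b', hh, hδ, hhb⟩ := hcong B hB.1
    -- an isometry realizing Cong
    have hn : ¬ ∃ u' ∈ uD K, δ = ε * u' := by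
      rintro ⟨u', hu', rfl⟩
      apply hB.2
      refine ⟨hB.1, u', hu', b', ?_⟩
      rw [hh]
      rcases hhb with h | h
      · left; simp only [h]
      · right; simp only [h]
    have hv : ‖ε * u‖ = 1 := by rw [norm_mul, hε, hu.1, one_mul]
    obtain ⟨g, hgA, hgb⟩ : ∃ g : ℂ ≃ᵢ ℂ, A = (fun z => g z) '' P ∧
        ((∀ z, g z = (ε * u) * z + b) ∨ (∀ z, g z = (ε * u) * (starRingEnd ℂ) z + b)) := by
      have hc : ε * u ∈ Submonoid.unitSphere ℂ := by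
        simpa [Submonoid.unitSphere] using hv
      let c : Circle := ⟨ε * u, hc⟩
      rcases hb with hb | hb
      · refine ⟨(rotation c).toIsometryEquiv.trans (IsometryEquiv.addRight b), ?_, Or.inl ?_⟩
        · rw [hb]
          apply image_congr
          intro z _
          simp [c, rotation_apply]
        · intro z
          simp [c, rotation_apply]
      · refine ⟨Complex.conjLIE.toIsometryEquiv.trans
          ((rotation c).toIsometryEquiv.trans (IsometryEquiv.addRight b)), ?_, Or.inr ?_⟩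
        · rw [hb]
          apply image_congr
          intro z _
          simp [c, rotation_apply]
        · intro z
          simp [c, rotation_apply]
    have hfi := H_inter K hK P hGd g h ε δ u b b' hε hδ hu hn hgb hhb
    rw [← hgA, ← hh] at hfi
    exact (hfi.subset (H_bd (hreg A hAT) (hreg B hB.1) (hT.disj hAT hB.1 hABne))).countable
  set Z : Set ℂ := ⋃₀ T1 ∩ ⋃₀ T2 with hZ
  have hZc : Z.Countable := by
    have hs : Z ⊆ ⋃ A ∈ T1, ⋃ B ∈ T2, A ∩ B := by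
      rintro z ⟨⟨A, hA, hzA⟩, ⟨B, hB, hzB⟩⟩
      simp only [mem_iUnion]
      exact ⟨A, hA, B, hB, hzA, hzB⟩
    refine Set.Countable.mono hs ?_
    refine (hcount.mono hT1s).biUnion (fun A hA => ?_)
    exact (hcount.mono hT2s).biUnion (fun B hB => hAB A hA B hB)
  have hrank : 1 < Module.rank ℝ ℂ := by
    rw [Complex.rank_real_complex]; norm_num
  have hconn := hZc.isConnected_compl_of_one_lt_rank hrank
  have hpre := hconn.isPreconnected
  rw [isPreconnected_closed_iff] at hpre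
  have hexZ : ∀ T' : Set (Set ℂ), ∀ A ∈ T', A ∈ T → (Zᶜ ∩ ⋃₀ T').Nonempty := by
    intro T' A hA hAT
    by_contra hem
    rw [not_nonempty_iff_eq_empty] at hem
    apply H_uncount (hreg A hAT)
    refine hZc.mono ?_
    intro z hz
    by_contra hzZ
    have : z ∈ Zᶜ ∩ ⋃₀ T' := ⟨hzZ, A, hA, hz⟩
    rw [hem] at this
    exact this
  obtain ⟨z, hz1, hz2⟩ := hpre (⋃₀ T1) (⋃₀ T2) hX1 hX2 (fun z _ => hcov z)
    (hexZ T1 A0 hA01 hA0) (hexZ T2 B0 hB02 hB0)
  exact hz1 hz2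

end H74R2.WT
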